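import Pool.Agent.W207.PF.SpecA
import Pool.Agent.H345R2.A2.Four

set_option autoImplicit false

open Filter Topology Set MeasureTheory
open scoped BigOperators

namespace Pool.Agent.W349.PF

open W207.PR (ct dt G)
open W207.PF H370.A2

theorem tn_cont (lam : ℝ) : Continuous (tn lam) := by
  unfold tn
  fun_prop

theorem tn_zero {lam : ℝ} (hl : 0 < lam) (x : ℝ) (h : lam ≤ |x|) : tn lam x = 0 := by
  unfold tn
  apply max_eq_right
  have : 1 ≤ |x| / lam := by rwa [le_div_iff₀ hl, one_mul]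
  linarith

theorem ct_eq {lam : ℝ} (hl : 0 < lam) : ct (tn lam) = RR (tn lam) lam := by
  funext x
  unfold ct RR
  symm
  apply intervalIntegral.integral_eq_integral_of_support_subset
  intro α hα
  by_contra h
  apply hα
  have : lam ≤ |α| := by
    by_contra h2
    push Not at h2
    obtain ⟨h3, h4⟩ := abs_lt.1 h2
    exact h ⟨by linarith, by linarith⟩
  show tn lam α * _ = 0
  rw [tn_zero hl α this, zero_mul]

theorem ct_scale {lam : ℝ} (hl : 0 < lam) (x : ℝ) :
    ct (tn lam) x = lam * ∫ β in (-1 : ℝ)..1, (1 - |β|) * Real.cos (2 * Real.pi * (lam * x) * β) := by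
  rw [ct_eq hl]
  unfold RR
  have h1 := intervalIntegral.integral_comp_mul_left (a := (-1 : ℝ)) (b := 1)
    (fun α => tn lam α * Real.cos (2 * Real.pi * α * x)) hl.ne'
  have h2 : lam * (-1 : ℝ) = -lam := by ring
  rw [h2, mul_one, smul_eq_mul] at h1
  have h3 : ∫ α in (-lam)..lam, tn lam α * Real.cos (2 * Real.pi * α * x) =
      lam * ∫ β in (-1 : ℝ)..1, tn lam (lam * β) * Real.cos (2 * Real.pi * (lam * β) * x) := by
    rw [h1, ← mul_assoc, mul_inv_cancel₀ hl.ne', one_mul]
  rw [h3]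
  congr 1
  apply intervalIntegral.integral_congr
  intro β hβ
  rw [uIcc_of_le (by norm_num)] at hβ
  have h4 : |β| ≤ 1 := abs_le.2 ⟨hβ.1, hβ.2⟩
  have h5 : tn lam (lam * β) = 1 - |β| := by
    unfold tn
    rw [abs_mul, abs_of_pos hl, mul_div_cancel_left₀ _ hl.ne']
    apply max_eq_left
    linarith
  simp only
  rw [h5]
  congr 2
  ring

theorem ct_val {lam : ℝ} (hl : 0 < lam) (x : ℝ) (hx : x ≠ 0) :
    ct (tn lam) x = lam * (Real.sin (Real.pi * (lam * x)) / (Real.pi * (lam * x))) ^ 2 := by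
  rw [ct_scale hl, fejer (mul_ne_zero hl.ne' hx)]

theorem ct_val0 {lam : ℝ} (hl : 0 < lam) : ct (tn lam) 0 = lam := by
  rw [ct_scale hl]
  have h1 : ∫ β in (-1 : ℝ)..1, (1 - |β|) * Real.cos (2 * Real.pi * (lam * 0) * β) =
      ∫ β in (-1 : ℝ)..1, (1 - |β|) := by
    apply intervalIntegral.integral_congr
    intro β _
    simp
  have h2 : ∫ β in (-1 : ℝ)..1, (1 - |β|) = 1 := by
    rw [int_sym (fun β => 1 - |β|) (by fun_prop) 1]
    have h3 : ∫ β in (0 : ℝ)..1, ((1 - |β|) + (1 - |-β|)) = ∫ β in (0 : ℝ)..1, (2 - 2 * β) := by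
      apply intervalIntegral.integral_congr
      intro β hβ
      rw [uIcc_of_le (by norm_num)] at hβ
      simp only
      rw [abs_neg, abs_of_nonneg hβ.1]
      ring
    rw [h3, intervalIntegral.integral_sub (by simp) (by
      apply Continuous.intervalIntegrable
      fun_prop), intervalIntegral.integral_const_mul, integral_id]
    norm_num
  rw [h1, h2, mul_one]

theorem main : S_TN := by
  intro lam hl
  have hpi := Real.pi_pos
  have hbd : ∀ x, 0 ≤ ct (tn lam) x ∧ ct (tn lam) x ≤ lam ∧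
      ct (tn lam) x * (Real.pi ^ 2 * lam * x ^ 2) ≤ 1 := by
    intro x
    by_cases hx : x = 0
    · rw [hx, ct_val0 hl]
      refine ⟨hl.le, le_rfl, ?_⟩
      simp
    · rw [ct_val hl x hx]
      have h1 : |Real.sin (Real.pi * (lam * x)) / (Real.pi * (lam * x))| ≤ 1 := by
        rw [abs_div]
        exact div_le_one_of_le₀ Real.abs_sin_le_abs (abs_nonneg _)
      have h2 : (Real.sin (Real.pi * (lam * x)) / (Real.pi * (lam * x))) ^ 2 ≤ 1 := by
        rw [← sq_abs]
        exact pow_le_one₀ (abs_nonneg _) h1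
      refine ⟨by positivity, by nlinarith, ?_⟩
      have h3 : lam * (Real.sin (Real.pi * (lam * x)) / (Real.pi * (lam * x))) ^ 2 *
          (Real.pi ^ 2 * lam * x ^ 2) = Real.sin (Real.pi * (lam * x)) ^ 2 := by
        field_simp
      rw [h3]
      exact Real.sin_sq_le_one _
  have hC : ∀ x, |RR (tn lam) lam x| * x ^ 2 ≤ 1 / (Real.pi ^ 2 * lam) := by
    intro x
    obtain ⟨h0, -, h2⟩ := hbd x
    rw [ct_eq hl] at h0 h2
    rw [abs_of_nonneg h0, le_div_iff₀ (by positivity)]
    linarith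
  have hz : ∀ x, lam ≤ |x| → tn lam x = 0 := tn_zero hl
  have hcont := tn_cont lam
  refine ⟨hcont, ?_, ?_, fun x hx => ct_val hl x hx, ct_val0 hl, ?_, ?_, hbd, ?_, ?_⟩
  · intro a
    unfold tn
    refine ⟨le_max_right _ _, max_le ?_ zero_le_one⟩
    have : 0 ≤ |a| / lam := by positivity
    linarith
  · have h1 := ct_val0 hl
    unfold ct at h1
    simpa using h1
  · rw [ct_eq hl]
    exact RR_cont hcont
  · intro x
    rw [ct_eq hl]
    exact RR_even x
  · rw [ct_eq hl]
    exact RR_integrable hcont hz hC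
  · have h1 := RR_inv hcont hz hC 0
    rw [ct_eq hl]
    simp only [mul_zero, Real.cos_zero, mul_one] at h1
    rw [h1]
    unfold evp tn
    simp

end Pool.Agent.W349.PF
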